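import Pool.Agent.Heil.PatMain
import Pool.Agent.Heil.Upper

/-!
Heilbronn's triangle problem in the unit disk for sets which avoid a permutation.

A set contains the permutation `σ` of length `r` if it has `r` points whose abscissae and ordinates
are in the relative order of the graph of `σ`. For `r ≥ 2` let `alphaAvoid σ n` be the supremum of the
least triangle area over all sets of `n` points of the disk which, in some positively oriented
orthonormal coordinate system, do not contain `σ`. Then
`c / (n ^ 2 log ^ 3 n) ≤ alphaAvoid σ n ≤ C / n ^ 2`, with an absolute constant `c` and `C` depending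
on `σ`. So the exponent of Heilbronn's problem is `2` in every proper
permutation class, and the lower bound of order `log n / n ^ 2` of Komlós, Pintz and Szemerédi is
not possible there: an `n`-point set of the disk without triangles of area less than `A / n ^ 2`,
`A` large in terms of `σ`, contains `σ` in every such coordinate system.

Upper bound. Divide the square into `m × m` cells, `m` a small multiple of `n`. The cells which
contain a point form a matrix without the permutation matrix `σ`; by the theorem of Marcus and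
Tardos, proved here, there are at most `C m` of them, so one contains three points.

Lower bound. An increasing set (a decreasing one, if `σ` is the identity): abscissae `i / N`,
`N = 2 ^ L ≥ 2 n`, and increments `(1 / N) (1 + X / (2 (L + 1)))` of the ordinates, where `X` is the sum
over the levels of the `L + 1` independent random variables of the dyadic blocks which contain the
place. The area of a triple with gaps `p`, `q` is an affine function of the variable of a dyadic
block of length at least `p / 4` in the first gap, with coefficient at least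
`p q / (16 (L + 1) N ^ 2)`. So there are few triples of area less than `c / (N ^ 2 L ^ 3)`, and one
point of each is deleted.
-/

set_option autoImplicit false

namespace Pool.Agent.Results.MP_46c443_co.AvoidPatterns

open Pool.Agent.Heil

open Classical in
/-- The set `S` multiplied by `w` (rotated, if `‖w‖ = 1`). -/
noncomputable def rot (w : ℂ) (S : Finset ℂ) : Finset ℂ := S.image fun z => w * z

/-- The supremum of `minArea S` over all sets `S` of `n` points of the closed unit disk which do not
contain `σ` in some positively oriented orthonormal coordinate system, that is, after a rotation. -/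
noncomputable def alphaAvoid {r : ℕ} (σ : Equiv.Perm (Fin r)) (n : ℕ) : ℝ :=
  sSup {t : ℝ | ∃ S : Finset ℂ, S.card = n ∧ (∀ z ∈ S, ‖z‖ ≤ 1) ∧
    (∃ w : ℂ, ‖w‖ = 1 ∧ ¬ Contains σ (rot w S)) ∧ t = minArea S}

theorem mem_rot {w z : ℂ} {S : Finset ℂ} : z ∈ rot w S ↔ ∃ y ∈ S, w * y = z := by
  unfold rot
  exact Finset.mem_image

theorem minArea_rot {w : ℂ} (hw : ‖w‖ = 1) (S : Finset ℂ) : minArea (rot w S) = minArea S := by
  have hw0 : w ≠ 0 := by
    intro h
    rw [h, norm_zero] at hw
    exact zero_ne_one hw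
  have harea : ∀ a b c : ℂ, triArea (w * a) (w * b) (w * c) = triArea a b c := by
    intro a b c
    rw [triArea_eq, triArea_eq, orient_mul, hw]
    simp
  unfold minArea
  congr 1
  ext t
  constructor
  · rintro ⟨a', ha, b', hb, c', hc, hab, hac, hbc, rfl⟩
    obtain ⟨a, ha', rfl⟩ := mem_rot.1 ha
    obtain ⟨b, hb', rfl⟩ := mem_rot.1 hb
    obtain ⟨c, hc', rfl⟩ := mem_rot.1 hc
    exact ⟨a, ha', b, hb', c, hc', fun h => hab (by rw [h]), fun h => hac (by rw [h]),
      fun h => hbc (by rw [h]), harea a b c⟩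
  · rintro ⟨a, ha, b, hb, c, hc, hab, hac, hbc, rfl⟩
    exact ⟨w * a, mem_rot.2 ⟨a, ha, rfl⟩, w * b, mem_rot.2 ⟨b, hb, rfl⟩, w * c,
      mem_rot.2 ⟨c, hc, rfl⟩, fun h => hab (mul_left_cancel₀ hw0 h),
      fun h => hac (mul_left_cancel₀ hw0 h), fun h => hbc (mul_left_cancel₀ hw0 h),
      (harea a b c).symm⟩

/-- The upper bound. -/
theorem upper {r : ℕ} (σ : Equiv.Perm (Fin r)) : ∃ C : ℝ, 0 < C ∧ ∀ (n : ℕ) (S : Finset ℂ),
    1 ≤ n → S.card = n → (∀ z ∈ S, ‖z‖ ≤ 1) → (∃ w : ℂ, ‖w‖ = 1 ∧ ¬ Contains σ (rot w S)) →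
      minArea S ≤ C / (n : ℝ) ^ 2 := by
  obtain ⟨C, hC0, hC⟩ := minArea_le_of_not_contains σ
  refine ⟨C, hC0, ?_⟩
  rintro n S hn hcard hdisk ⟨w, hw, hσ⟩
  have hw0 : w ≠ 0 := by
    intro h
    rw [h, norm_zero] at hw
    exact zero_ne_one hw
  rw [← minArea_rot hw S]
  refine hC n (rot w S) hn ?_ ?_ hσ
  · unfold rot
    rw [Finset.card_image_of_injective _ (fun x y h => mul_left_cancel₀ hw0 h), hcard]
  · intro z hz
    obtain ⟨y, hy, rfl⟩ := mem_rot.1 hz
    rw [norm_mul, hw, one_mul]
    exact hdisk y hy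

/-- The Heilbronn constant of the sets which avoid a permutation is `n ^ (-2)` up to `log ^ 3 n`. -/
theorem result :
    ∃ c : ℝ, 0 < c ∧ ∀ r : ℕ, 2 ≤ r → ∀ σ : Equiv.Perm (Fin r), ∃ C : ℝ, ∀ n : ℕ, 3 ≤ n →
      c / ((n : ℝ) ^ 2 * Real.log n ^ 3) ≤ alphaAvoid σ n ∧
        alphaAvoid σ n ≤ C / (n : ℝ) ^ 2 := by
  obtain ⟨c, hc, hmain⟩ := alphaPat_bounds
  refine ⟨c, hc, fun r hr σ => ?_⟩
  obtain ⟨C', hC'⟩ := hmain r hr σ
  obtain ⟨C, hC0, hC⟩ := upper σ
  refine ⟨C, fun n hn => ?_⟩
  have hub : ∀ t ∈ {t : ℝ | ∃ S : Finset ℂ, S.card = n ∧ (∀ z ∈ S, ‖z‖ ≤ 1) ∧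
      (∃ w : ℂ, ‖w‖ = 1 ∧ ¬ Contains σ (rot w S)) ∧ t = minArea S}, t ≤ C / (n : ℝ) ^ 2 := by
    rintro t ⟨S, h1, h2, h3, rfl⟩
    exact hC n S (by omega) h1 h2 h3
  constructor
  · refine (hC' n hn).1.trans (Real.sSup_le ?_ (Real.sSup_nonneg ?_))
    · rintro t ⟨S, h1, h2, h3, rfl⟩
      refine le_csSup ⟨_, hub⟩ ⟨S, h1, h2, ⟨1, norm_one, ?_⟩, rfl⟩
      have : rot 1 S = S := by
        unfold rot
        simp
      rw [this]
      exact h3
    · rintro t ⟨S, -, -, -, rfl⟩
      refine Real.sInf_nonneg ?_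
      rintro t ⟨a, -, b, -, c, -, -, -, -, rfl⟩
      exact triArea_nonneg _ _ _
  · exact Real.sSup_le hub (by positivity)

end Pool.Agent.Results.MP_46c443_co.AvoidPatterns
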