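import Pool.Agent.Heil.Asym

/-!
Heilbronn's triangle problem in the unit disk for sets with few convex layers.

The convex layers of a finite set are obtained by deleting repeatedly the points which are not in
the convex hull of the other points. Let `alphaLayers k n` be the supremum of the least triangle area
over all sets of `n` points of the disk with at most `k` convex layers, and `alphaUnion k n` the same
for unions of `k` sets in convex position. Then both are at most `4 π ^ 3 (k / n) ^ 3`, for all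
`n ≥ 3` and `k ≥ 1`, and this is asymptotically sharp as long as `k` is small compared with
`n ^ (1/3)`, that is until the bound reaches the order `1 / n ^ 2` of Erdős' lower bound.

Upper bound. One of the `k` sets, `V`, has `m ≥ n / k` points. In the convex polygon with vertices
`V` the product of the areas of the `m` triangles of three consecutive vertices is
`∏ e_i ^ 2 ∏ sin t_i / 2 ^ m` (`e_i` the sides, `t_i` the exterior angles). As `∑ e_i ≤ 2 π` and
`∑ t_i = 2 π`, the inequality of the means gives a triangle of area at most `(1/2) (2 π / m) ^ 3`.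

Lower bound. `2 k μ ≥ (1 + ζ) n` points on `k` upper and `k` lower arcs of the circle, the arcs moved
inwards by independent random amounts; the abscissae of all points are different up to the symmetry
between the two sides. Triangles in one arc have the right area. For the others twice the area is an
affine function of the shift of one arc, whose coefficient is the distance of the abscissae of the
two other points. The expected number of small triangles is at most `C(ζ) k ^ (3/2) n ^ (1/2)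
+ C(ζ) k ^ 3`, which is at most `ζ n`: one vertex of each is deleted. The points on the outermost
upper and lower arc are extreme points, so there are at most `k` layers.
-/

set_option autoImplicit false

namespace Pool.Agent.Results.MP_46c443_co.FewLayers

open Pool.Agent.Heil Filter Topology

theorem bddAbove_union {k n : ℕ} (hk : 1 ≤ k) (hn : 3 ≤ n) : BddAbove {t : ℝ | ∃ S : Finset ℂ,
    S.card = n ∧ (∀ z ∈ S, ‖z‖ ≤ 1) ∧ (∃ V : Fin k → Finset ℂ, (∀ i, ConvexPos (V i)) ∧
      (S : Set ℂ) = ⋃ i, (V i : Set ℂ)) ∧ t = minArea S} := by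
  refine ⟨4 * Real.pi ^ 3 * ((k : ℝ) / n) ^ 3, ?_⟩
  rintro t ⟨S, hS, hd, ⟨V, hV, hU⟩, rfl⟩
  exact minArea_union_le hk hn hS hd hV hU

theorem bddAbove_layers {k n : ℕ} (hk : 1 ≤ k) (hn : 3 ≤ n) : BddAbove {t : ℝ | ∃ S : Finset ℂ,
    S.card = n ∧ (∀ z ∈ S, ‖z‖ ≤ 1) ∧ peel^[k] S = ∅ ∧ t = minArea S} := by
  refine (bddAbove_union hk hn).mono ?_
  rintro t ⟨S, hS, hd, hp, rfl⟩
  exact ⟨S, hS, hd, union_of_layers k S hp, rfl⟩

theorem minArea_nonneg (S : Finset ℂ) : 0 ≤ minArea S := by
  refine Real.sInf_nonneg ?_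
  rintro t ⟨a, -, b, -, c, -, -, -, -, rfl⟩
  exact triArea_nonneg _ _ _

theorem union_le {k n : ℕ} (hk : 1 ≤ k) (hn : 3 ≤ n) :
    alphaUnion k n ≤ 4 * Real.pi ^ 3 * ((k : ℝ) / n) ^ 3 := by
  refine Real.sSup_le ?_ (by positivity)
  rintro t ⟨S, hS, hd, ⟨V, hV, hU⟩, rfl⟩
  exact minArea_union_le hk hn hS hd hV hU

theorem layers_le_union {k n : ℕ} (hk : 1 ≤ k) (hn : 3 ≤ n) :
    alphaLayers k n ≤ alphaUnion k n := by
  refine Real.sSup_le ?_ (Real.sSup_nonneg ?_)
  · rintro t ⟨S, hS, hd, hp, rfl⟩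
    exact le_csSup (bddAbove_union hk hn) ⟨S, hS, hd, union_of_layers k S hp, rfl⟩
  · rintro t ⟨S, -, -, -, rfl⟩
    exact minArea_nonneg S

theorem lower {η : ℝ} (hη : 0 < η) : ∃ c : ℝ, 0 < c ∧ ∃ N : ℕ, ∀ n k : ℕ, N ≤ n → 1 ≤ k →
    (k : ℝ) ^ 3 ≤ c * n → (1 - η) * (4 * Real.pi ^ 3 * ((k : ℝ) / n) ^ 3) ≤ alphaLayers k n := by
  obtain ⟨c, hc, N, hN⟩ := exists_layers (η := min η (1 / 2)) (lt_min hη (by norm_num))
    (lt_of_le_of_lt (min_le_right _ _) (by norm_num))
  refine ⟨c, hc, max N 3, fun n k hn hk hkn => ?_⟩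
  have hn3 : 3 ≤ n := le_trans (le_max_right _ _) hn
  obtain ⟨S, hS, hd, hp, harea⟩ := hN n k (le_trans (le_max_left _ _) hn) hk hkn
  have h1 : (1 - min η (1 / 2)) * (4 * Real.pi ^ 3 * ((k : ℝ) / n) ^ 3) ≤ minArea S :=
    le_minArea (by omega) harea
  have h2 : minArea S ≤ alphaLayers k n := le_csSup (bddAbove_layers hk hn3) ⟨S, hS, hd, hp, rfl⟩
  refine le_trans ?_ (h1.trans h2)
  refine mul_le_mul_of_nonneg_right ?_ (by positivity)
  have := min_le_left η (1 / 2)
  linarith

/-- Sets with `k` convex layers: the Heilbronn constant is `(4 π³ + o(1)) (k/n)³` for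
`k = o(n^(1/3))`. -/
theorem result :
    (∀ k n : ℕ, 1 ≤ k → 3 ≤ n → alphaLayers k n ≤ alphaUnion k n ∧
      alphaUnion k n ≤ 4 * Real.pi ^ 3 * ((k : ℝ) / n) ^ 3) ∧
    (∀ η : ℝ, 0 < η → ∃ c : ℝ, 0 < c ∧ ∃ N : ℕ, ∀ n k : ℕ, N ≤ n → 1 ≤ k →
      (k : ℝ) ^ 3 ≤ c * n →
        (1 - η) * (4 * Real.pi ^ 3 * ((k : ℝ) / n) ^ 3) ≤ alphaLayers k n) ∧
    (∀ κ : ℕ → ℕ, (∀ n, 1 ≤ κ n) → Tendsto (fun n : ℕ => (κ n : ℝ) ^ 3 / n) atTop (𝓝 0) →
      Tendsto (fun n : ℕ => alphaLayers (κ n) n / (4 * Real.pi ^ 3 * ((κ n : ℝ) / n) ^ 3))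
        atTop (𝓝 1) ∧
      Tendsto (fun n : ℕ => alphaUnion (κ n) n / (4 * Real.pi ^ 3 * ((κ n : ℝ) / n) ^ 3))
        atTop (𝓝 1)) := by
  refine ⟨fun k n hk hn => ⟨layers_le_union hk hn, union_le hk hn⟩, fun η hη => lower hη, ?_⟩
  intro κ hκ hlim
  have hpos : ∀ n : ℕ, 3 ≤ n → 0 < 4 * Real.pi ^ 3 * ((κ n : ℝ) / n) ^ 3 := by
    intro n hn
    have h1 : (0 : ℝ) < κ n := by exact_mod_cast hκ n
    have h2 : (0 : ℝ) < n := by
      have : 0 < n := by omega
      exact_mod_cast this
    have := Real.pi_pos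
    positivity
  have key : ∀ η : ℝ, 0 < η → ∀ᶠ n : ℕ in atTop,
      1 - η ≤ alphaLayers (κ n) n / (4 * Real.pi ^ 3 * ((κ n : ℝ) / n) ^ 3) := by
    intro η hη
    obtain ⟨c, hc, N, hN⟩ := lower hη
    filter_upwards [hlim.eventually (gt_mem_nhds hc), eventually_ge_atTop (max N 3)] with n h1 h2
    have hn3 : 3 ≤ n := le_trans (le_max_right _ _) h2
    have hn0 : (0 : ℝ) < n := by
      have : 0 < n := by omega
      exact_mod_cast this
    rw [le_div_iff₀ (hpos n hn3)]
    refine hN n (κ n) (le_trans (le_max_left _ _) h2) (hκ n) ?_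
    rw [div_lt_iff₀ hn0] at h1
    exact h1.le
  have up : ∀ n : ℕ, 3 ≤ n →
      alphaLayers (κ n) n / (4 * Real.pi ^ 3 * ((κ n : ℝ) / n) ^ 3)
        ≤ alphaUnion (κ n) n / (4 * Real.pi ^ 3 * ((κ n : ℝ) / n) ^ 3) ∧
      alphaUnion (κ n) n / (4 * Real.pi ^ 3 * ((κ n : ℝ) / n) ^ 3) ≤ 1 := by
    intro n hn
    refine ⟨div_le_div_of_nonneg_right (layers_le_union (hκ n) hn) (hpos n hn).le, ?_⟩
    rw [div_le_one (hpos n hn)]
    exact union_le (hκ n) hn
  constructor
  · rw [tendsto_order]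
    constructor
    · intro a ha
      filter_upwards [key ((1 - a) / 2) (by linarith)] with n h1
      linarith
    · intro a ha
      filter_upwards [eventually_ge_atTop 3] with n h1
      exact lt_of_le_of_lt ((up n h1).1.trans (up n h1).2) ha
  · rw [tendsto_order]
    constructor
    · intro a ha
      filter_upwards [key ((1 - a) / 2) (by linarith), eventually_ge_atTop 3] with n h1 h2
      have := (up n h2).1
      linarith
    · intro a ha
      filter_upwards [eventually_ge_atTop 3] with n h1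
      exact lt_of_le_of_lt (up n h1).2 ha

end Pool.Agent.Results.MP_46c443_co.FewLayers
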